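import Pool.Agent.H698.UA.Sim

set_option autoImplicit false

/-! # All-pairs shortest paths and circuits with unknown inputs: the lower bound (helper698) -/

open scoped Classical
open Finset

namespace Pool.Agent.H698.UA

open Pool.Agent.H698.HF
open Pool.Agent.H587R2.MRB

/-- the weights of the arcs of a complete directed graph: the arcs in `x` have weight `1`, all
others have weight `W` -/
noncomputable def wts {n : ℕ} (W : ℕ) (x : Fin n × Fin n → Prop) (u v : Fin n) : ℕ :=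
  if x (u, v) then 1 else W

/-- the randomised circuit `l`, which has the form `l ω` with probability `p ω`, distinguishes
distances at most `2` from distances larger than `2 α` with advantage `δ`: there are output gates
`out ω (u, v)` and upper sets `acc ω` of the values that mean yes such that, for all sets `x` of
arcs of weight `1` (all others have the weight `W`) and all pairs `u ≠ v` of vertices, the answer is
yes with probability at least `1 / 2 + δ` if the distance from `u` to `v` is at most `2` and the arcs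
of weight `1` are known (everything else may be unknown), and the answer is not yes with probability
at least `1 / 2 + δ` if the distance is larger than `2 α` and everything is known -/
def SolvesA {n : ℕ} (W : ℕ) (α δ : ℝ) {D : Type} [PartialOrder D]
    {Ω : Type} [Fintype Ω] (p : Ω → ℝ) (l : Ω → List (Know (Fin n × Fin n) → D)) : Prop :=
  (∀ ω, 0 ≤ p ω) ∧ ∑ ω, p ω = 1 ∧
  ∃ (out : Ω → Fin n × Fin n → Know (Fin n × Fin n) → D) (acc : Ω → Set D),
    (∀ ω e, out ω e ∈ l ω) ∧ (∀ ω, IsUpperSet (acc ω)) ∧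
    ∀ (x : Fin n × Fin n → Prop) (u v : Fin n), u ≠ v →
      (dist (wts W x) u v ≤ 2 →
        1 / 2 + δ ≤ ∑ ω ∈ univ.filter (fun ω => out ω (u, v) (truths x) ∈ acc ω), p ω) ∧
      (2 * α < dist (wts W x) u v →
        1 / 2 + δ ≤ ∑ ω ∈ univ.filter (fun ω => out ω (u, v) (full x) ∉ acc ω), p ω)

variable {n : ℕ} {D : Type} [PartialOrder D]

/-- the answer is right -/
def GoodAns (P : Prog (Fin n × Fin n) (Fin n × Fin n)) (s : (Fin n × Fin n) ⊕ ℕ → ℝ)
    (o : Fin n × Fin n) (b : Prop) : Prop := b ↔ P.answer s o < 0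

theorem lower_param (hD : TreeLike D) {W a : ℕ} {α δ : ℝ} (ha : 4 * a ≤ n) (hα : 1 ≤ α)
    (hW : 2 * α < W) {Ω : Type} [Fintype Ω] (p : Ω → ℝ)
    (l : Ω → List (Know (Fin n × Fin n) → D)) (hl : ∀ ω, Circ (l ω)) (hs : SolvesA W α δ p l) :
    (a : ℝ) ^ 3 * (2 * δ) ≤ 2 * (∑ ω, p ω * (l ω).length) + (a : ℝ) ^ 2 := by
  obtain ⟨hp, hp1, out, acc, h1, h2, h3⟩ := hs
  have hW2 : 2 ≤ W := by
    have : (2 : ℝ) < W := by linarith
    have : 2 < W := by exact_mod_cast this
    omega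
  have hP := fun ω => prog_of_circ hW2 hD (acc ω) (h2 ω) (hl ω) (out ω) (h1 ω)
  choose P g1 g2 g3 using hP
  have hcard : Fintype.card ((Fin 1 × Fin a) ⊕ ((Fin 1 × Fin a) ⊕ (Fin (2 * 1) × Fin a))) ≤
      Fintype.card (Fin n) := by
    simp only [Fintype.card_sum, Fintype.card_prod, Fintype.card_fin]
    linarith
  obtain ⟨e⟩ := Function.Embedding.nonempty_of_card_le hcard
  have hin : ∀ x : Pt 1 a, input (wt e W x) =
      start W (fun f : Fin n × Fin n => Cheap e x f.1 f.2) := by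
    intro x
    funext R
    rcases R with ⟨u, v⟩ | q
    · show ((wt e W x u v : ℕ) : ℝ) = if Cheap e x u v then 1 else (W : ℝ)
      unfold wt
      split_ifs <;> simp
    · rfl
  have hwt : ∀ x : Pt 1 a, wts W (fun f : Fin n × Fin n => Cheap e x f.1 f.2) = wt e W x := by
    intro x
    funext u v
    rfl
  have key := avg_bound p hp hp1 P (m := 1) (fun ω => (g1 ω).le)
    (fun x : Pt 1 a => input (wt e W x)) (input_anti (by omega)) input_dep
    (fun i j => (e (Sum.inl i), e (Sum.inr (Sum.inl j)))) (δ := δ)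
    (fun ω x i j => GoodAns (P ω) (input (wt e W x)) (e (Sum.inl i), e (Sum.inr (Sum.inl j)))
      (∃ y, x.1 i y ∧ x.2 y j))
    ?_ ?_ (c := 2 * ∑ ω, p ω * (l ω).length) ?_
  · simpa using key
  · intro ω x x' i j k1 k2 k3 k4
    have k5 := k1.1 k3
    have k6 : ¬ (P ω).answer (input (wt e W x')) (e (Sum.inl i), e (Sum.inr (Sum.inl j))) < 0 := by
      intro h
      obtain ⟨y, hy1, hy2⟩ := k2.2 h
      exact k4 y hy1 hy2
    exact lt_of_lt_of_le k5 (not_lt.1 k6)
  · intro x i j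
    have hne : e (Sum.inl i) ≠ e (Sum.inr (Sum.inl j)) := by
      intro h
      have := e.injective h
      simp at this
    have h4 := h3 (fun f : Fin n × Fin n => Cheap e x f.1 f.2) _ _ hne
    rw [hwt] at h4
    by_cases hk : ∃ y, x.1 i y ∧ x.2 y j
    · refine (h4.1 (dist_le_two hk)).trans
        (sum_le_sum_of_subset_of_nonneg ?_ fun ω _ _ => hp ω)
      intro ω hω
      rw [mem_filter] at hω ⊢
      refine ⟨hω.1, ?_⟩
      unfold GoodAns
      rw [hin, g3]
      exact ⟨fun _ => hω.2, fun _ => hk⟩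
    · have hd : W ≤ dist (wt e W x) (e (Sum.inl i)) (e (Sum.inr (Sum.inl j))) :=
        le_dist (fun y hy1 hy2 => hk ⟨y, hy1, hy2⟩)
      have hd' : (W : ℝ) ≤ dist (wt e W x) (e (Sum.inl i)) (e (Sum.inr (Sum.inl j))) := by
        exact_mod_cast hd
      refine (h4.2 (lt_of_lt_of_le hW hd')).trans
        (sum_le_sum_of_subset_of_nonneg ?_ fun ω _ _ => hp ω)
      intro ω hω
      rw [mem_filter] at hω ⊢
      refine ⟨hω.1, ?_⟩
      unfold GoodAns
      rw [hin, g3]
      refine ⟨fun h => absurd h hk, fun h => ?_⟩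
      exact absurd (h2 ω ((hl ω).mono _ (h1 ω _) _ _ (truths_le_full _)) h) hω.2
  · intro x
    rw [mul_sum]
    refine sum_le_sum fun ω _ => ?_
    have h5 : ((P ω).cost (input (wt e W x)) : ℝ) ≤ 2 * (l ω).length := by
      exact_mod_cast g2 ω _
    calc p ω * ((P ω).cost (input (wt e W x)) : ℝ) ≤ p ω * (2 * (l ω).length) :=
          mul_le_mul_of_nonneg_left h5 (hp ω)
      _ = 2 * (p ω * (l ω).length) := by ring

/-- the lower bound -/
theorem lowerA (hD : TreeLike D) {W : ℕ} {α δ : ℝ} (hδ : δ ≤ 1 / 2) (hn : 8 ≤ δ * n)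
    (hα : 1 ≤ α) (hW : 2 * α < W) {Ω : Type} [Fintype Ω] (p : Ω → ℝ)
    (l : Ω → List (Know (Fin n × Fin n) → D)) (hl : ∀ ω, Circ (l ω)) (hs : SolvesA W α δ p l) :
    δ * (n : ℝ) ^ 3 ≤ 200 * ∑ ω, p ω * ((l ω).length : ℝ) := by
  have hn0 : (0 : ℝ) ≤ n := Nat.cast_nonneg n
  have hn16 : (16 : ℝ) ≤ n := by nlinarith
  have hδ0 : 0 < δ := by
    by_contra hcon
    push Not at hcon
    nlinarith
  have ha : 4 * (n / 4) ≤ n := Nat.mul_div_le n 4
  have h1 := lower_param hD ha hα hW p l hl hs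
  set a := n / 4 with hadef
  set c := ∑ ω, p ω * ((l ω).length : ℝ) with hc
  have h2 : (13 : ℝ) / 64 * n ≤ a := by
    have h3 : n ≤ 4 * a + 3 := by omega
    have h4 : (n : ℝ) ≤ 4 * a + 3 := by exact_mod_cast h3
    linarith
  have ha0 : (0 : ℝ) ≤ a := Nat.cast_nonneg a
  have h5 : (13 : ℝ) / 8 ≤ δ * a := by nlinarith
  have h6 : (a : ℝ) ^ 2 ≤ 8 / 13 * (δ * (a : ℝ) ^ 3) := by
    have : (a : ℝ) ^ 2 * (13 / 8) ≤ (a : ℝ) ^ 2 * (δ * a) :=
      mul_le_mul_of_nonneg_left h5 (sq_nonneg _)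
    nlinarith
  have h7 : 18 / 13 * (δ * (a : ℝ) ^ 3) ≤ 2 * c := by linarith
  have h8 : ((13 : ℝ) / 64 * n) ^ 3 ≤ (a : ℝ) ^ 3 := by
    gcongr
  have h9 : δ * ((13 : ℝ) / 64 * n) ^ 3 ≤ δ * (a : ℝ) ^ 3 := mul_le_mul_of_nonneg_left h8 hδ0.le
  have h10 : δ * ((13 : ℝ) / 64 * n) ^ 3 = (13 / 64) ^ 3 * (δ * (n : ℝ) ^ 3) := by ring
  rw [h10] at h9
  have h11 : 0 ≤ δ * (n : ℝ) ^ 3 := by positivity
  nlinarith

end Pool.Agent.H698.UA
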