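import Pool.Agent.H698.HF.Core
import Pool.Graph.R_seed8.H587R2.MRB.APSP

set_option autoImplicit false

/-! # Circuits with unknown inputs and monotone real programs for inputs with two values (helper698) -/

open scoped Classical
open Finset

namespace Pool.Agent.H698.UA

open Pool.Agent.H698.HF
open Pool.Agent.H587R2.MRB

section

variable {ι O : Type} {D : Type} [PartialOrder D]

/-- the contents of the registers at the start: the number `1` for the elements of `x`, the number
`W` for all others -/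
noncomputable def start (W : ℕ) (x : ι → Prop) : ι ⊕ ℕ → ℝ :=
  initial fun e => if x e then 1 else (W : ℝ)

/-- the register content `w` is the negative of the value of the gate `g` -/
def Rep (A : Set D) (g : Know ι → D) (w : (ι → Prop) → ℝ) : Prop :=
  (∀ x y, g (truths x) ≤ g (truths y) ↔ w y ≤ w x) ∧ ∀ x, g (truths x) ∈ A ↔ w x < 0

/-- the gates of the list are simulated by a straight-line program with monotone real gates -/
def Sim (W : ℕ) (A : Set D) (O : Type) (l : List (Know ι → D)) : Prop :=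
  ∃ (pre : Prog ι O → Prog ι O) (st : (ι ⊕ ℕ → ℝ) → (ι ⊕ ℕ → ℝ)) (c N : ℕ), c ≤ 2 * l.length ∧
    (∀ P, (pre P).leaves = P.leaves) ∧ (∀ P s, (pre P).cost s = c + P.cost (st s)) ∧
    (∀ P s, (pre P).answer s = P.answer (st s)) ∧
    (∀ x e, st (start W x) (Sum.inl e) = start W x (Sum.inl e)) ∧
    ∀ g ∈ l, ∃ q < N, Rep A g (fun x => st (start W x) (Sum.inr q))

theorem Sim.cons {W : ℕ} {A : Set D} {l : List (Know ι → D)} (g' : Know ι → D)
    (h : ∀ (st : (ι ⊕ ℕ → ℝ) → (ι ⊕ ℕ → ℝ)),
      (∀ x e, st (start W x) (Sum.inl e) = start W x (Sum.inl e)) →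
      (∀ g ∈ l, ∃ q : ℕ, Rep A g (fun x => st (start W x) (Sum.inr q))) →
      ∃ (k : ℕ) (src : Fin k → ι ⊕ ℕ) (f : (Fin k → ℝ) → ℝ), k ≤ 2 ∧ Monotone f ∧
        Rep A g' (fun x => f fun a => st (start W x) (src a)))
    (hs : Sim W A O l) : Sim W A O (g' :: l) := by
  obtain ⟨pre, st, c, N, h1, h2, h3, h4, h5, h6⟩ := hs
  obtain ⟨k, src, f, hk, hf, hr⟩ := h st h5 (fun g hg => by
    obtain ⟨q, -, hq⟩ := h6 g hg
    exact ⟨q, hq⟩)
  refine ⟨fun P => pre (Prog.gate k src f hf (Sum.inr N) P),
    fun s => Function.update (st s) (Sum.inr N) (f fun a => st s (src a)), c + k, N + 1, ?_,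
    ?_, ?_, ?_, ?_, ?_⟩
  · rw [List.length_cons]; omega
  · intro P
    rw [h2]; rfl
  · intro P s
    rw [h3]
    show c + (k + _) = _
    ring
  · intro P s
    rw [h4]; rfl
  · intro x e
    dsimp only
    rw [Function.update_of_ne (by simp), h5]
  · intro g hg
    rcases List.mem_cons.1 hg with rfl | hg
    · refine ⟨N, Nat.lt_succ_self N, ?_, ?_⟩
      · intro x y
        dsimp only
        rw [Function.update_self, Function.update_self]
        exact hr.1 x y
      · intro x
        dsimp only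
        rw [Function.update_self]
        exact hr.2 x
    · obtain ⟨q, hq, g1, g2⟩ := h6 g hg
      have hne : (Sum.inr q : ι ⊕ ℕ) ≠ Sum.inr N := by
        intro h
        have : q = N := Sum.inr.inj h
        omega
      refine ⟨q, by omega, ?_, ?_⟩
      · intro x y
        dsimp only
        rw [Function.update_of_ne hne, Function.update_of_ne hne]
        exact g1 x y
      · intro x
        dsimp only
        rw [Function.update_of_ne hne]
        exact g2 x

theorem shift_mono : StrictMono fun t : ℝ => if 1 ≤ t then t + 4 else t - 4 := by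
  intro x y hxy
  dsimp only
  split_ifs <;> linarith

theorem shift_pos (t : ℝ) : 0 < (if 1 ≤ t then t + 4 else t - 4) ↔ 1 ≤ t := by
  split_ifs with h
  · exact ⟨fun _ => h, fun _ => by linarith⟩
  · exact ⟨fun h' => by linarith, fun h' => absurd h' h⟩

theorem rep_gate (hD : TreeLike D) (A : Set D) (hA : IsUpperSet A)
    (φ : D → D → D) (hφ : ∀ a a' b b', a ≤ a' → b ≤ b' → φ a b ≤ φ a' b')
    {g1 g2 : Know ι → D} (m1 : ∀ P Q, Le P Q → g1 P ≤ g1 Q)
    (m2 : ∀ P Q, Le P Q → g2 P ≤ g2 Q)
    {w1 w2 : (ι → Prop) → ℝ}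
    (h1 : ∀ x y, g1 (truths x) ≤ g1 (truths y) ↔ w1 y ≤ w1 x)
    (h2 : ∀ x y, g2 (truths x) ≤ g2 (truths y) ↔ w2 y ≤ w2 x) :
    ∃ Φ : ℝ → ℝ → ℝ, (∀ a a' b b', a ≤ a' → b ≤ b' → Φ a b ≤ Φ a' b') ∧
      Rep A (fun P => φ (g1 P) (g2 P)) (fun x => Φ (w1 x) (w2 x)) := by
  have htop : ∀ x : ι → Prop, Le (truths x) (truths fun _ : ι => True) :=
    fun x => truths_le_truths fun _ _ => trivial
  obtain ⟨Φ, hΦ1, hΦ2, hΦ3⟩ := sim_gate hD A hA φ hφ
    (fun x : ι → Prop => g1 (truths x)) (fun x : ι → Prop => g2 (truths x))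
    (g1 (truths fun _ : ι => True)) (g2 (truths fun _ : ι => True))
    (fun x => m1 _ _ (htop x)) (fun x => m2 _ _ (htop x)) (fun x => - w1 x) (fun x => - w2 x)
    (fun x y => (h1 x y).trans neg_le_neg_iff.symm)
    (fun x y => (h2 x y).trans neg_le_neg_iff.symm)
  refine ⟨fun a b => -(if 1 ≤ Φ (-a) (-b) then Φ (-a) (-b) + 4 else Φ (-a) (-b) - 4),
    ?_, ?_, ?_⟩
  · intro a a' b b' ha hb
    exact neg_le_neg (shift_mono.monotone (hΦ1 _ _ _ _ (neg_le_neg ha) (neg_le_neg hb)))
  · intro x y
    rw [show (((fun P => φ (g1 P) (g2 P)) (truths x) ≤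
      (fun P => φ (g1 P) (g2 P)) (truths y)) ↔ _) from hΦ2 x y]
    exact (shift_mono.le_iff_le.symm).trans neg_le_neg_iff.symm
  · intro x
    rw [show ((fun P => φ (g1 P) (g2 P)) (truths x) ∈ A ↔ _) from hΦ3 x]
    exact (shift_pos _).symm.trans neg_neg_iff_pos.symm

theorem sim_of_circ {W : ℕ} (hW : 2 ≤ W) (hD : TreeLike D) (A : Set D) (hA : IsUpperSet A)
    {l : List (Know ι → D)} (hl : Circ l) : Sim W A O l := by
  induction hl with
  | nil =>
    exact ⟨id, id, 0, 0, by simp, fun P => rfl, fun P s => by simp, fun P s => rfl,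
      fun x e => rfl, fun g hg => absurd hg (by simp)⟩
  | @input l e i hl hi ih =>
    refine ih.cons _ fun st hst _ => ?_
    by_cases hlt : i (some true) ≤ i none
    · have hc : ∀ x : ι → Prop, i (truths x e) = i none := by
        intro x
        unfold truths
        split_ifs
        · exact le_antisymm hlt (hi true)
        · rfl
      refine ⟨0, Fin.elim0, fun _ => if i none ∈ A then -1 else 1, by omega,
        fun _ _ _ => le_rfl, ?_, ?_⟩
      · intro x y
        simp only [hc, le_refl]
      · intro x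
        simp only [hc]
        split_ifs with h
        · simp [h]
        · simp only [h, false_iff]; norm_num
    · have hW' : (2 : ℝ) ≤ W := by exact_mod_cast hW
      have hw : ∀ x y : ι → Prop, i (truths x e) ≤ i (truths y e) ↔
          start W y (Sum.inl e) ≤ start W x (Sum.inl e) := by
        intro x y
        have e1 : ∀ z : ι → Prop, start W z (Sum.inl e) = if z e then 1 else (W : ℝ) :=
          fun z => rfl
        rw [e1, e1]
        unfold truths
        by_cases hx : x e <;> by_cases hy : y e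
        · simp [hx, hy]
        · simp only [hx, hy, if_true, if_false]
          constructor
          · intro h; exact absurd h hlt
          · intro h; linarith
        · simp only [hx, hy, if_true, if_false]
          constructor
          · intro _; linarith
          · intro _; exact hi true
        · simp [hx, hy]
      have hm : ∀ P Q : Know ι, Le P Q → i (P e) ≤ i (Q e) := by
        intro P Q h
        rcases h e with h | h
        · rw [h]
          cases hq : Q e with
          | none => exact le_rfl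
          | some b => exact hi b
        · rw [h]
      obtain ⟨Φ, hΦ1, hΦ2⟩ := rep_gate hD A hA (fun s _ => s) (fun _ _ _ _ h _ => h)
        (g1 := fun P => i (P e)) (g2 := fun P => i (P e)) hm hm hw hw
      refine ⟨1, fun _ => Sum.inl e, fun x => Φ (x 0) (x 0), by omega,
        fun x y hxy => hΦ1 _ _ _ _ (hxy 0) (hxy 0), ?_⟩
      have e2 : (fun x : ι → Prop => Φ (st (start W x) (Sum.inl e))
          (st (start W x) (Sum.inl e))) = fun x => Φ (start W x (Sum.inl e))
          (start W x (Sum.inl e)) := by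
        funext x; rw [hst]
      show Rep A _ (fun x : ι → Prop => Φ (st (start W x) (Sum.inl e))
          (st (start W x) (Sum.inl e)))
      rw [e2]
      exact hΦ2
  | @const l c hl ih =>
    refine ih.cons _ fun st hst _ => ?_
    refine ⟨0, Fin.elim0, fun _ => if c ∈ A then -1 else 1, by omega,
      fun _ _ _ => le_rfl, ?_, ?_⟩
    · intro x y
      simp only [le_refl]
    · intro x
      split_ifs with h
      · simp [h]
      · simp only [h, false_iff]; norm_num
  | @gate l φ f g' hl hφ hf hg' ih =>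
    refine ih.cons _ fun st hst hreg => ?_
    obtain ⟨q1, hq1⟩ := hreg f hf
    obtain ⟨q2, hq2⟩ := hreg g' hg'
    obtain ⟨Φ, hΦ1, hΦ2⟩ := rep_gate hD A hA φ hφ (hl.mono f hf) (hl.mono g' hg') hq1.1 hq2.1
    exact ⟨2, ![Sum.inr q1, Sum.inr q2], fun x => Φ (x 0) (x 1), le_rfl,
      fun x y hxy => hΦ1 _ _ _ _ (hxy 0) (hxy 1), hΦ2⟩

theorem prog_of_circ {W : ℕ} (hW : 2 ≤ W) (hD : TreeLike D) (A : Set D) (hA : IsUpperSet A)
    {l : List (Know ι → D)} (hl : Circ l) (out : O → Know ι → D) (hout : ∀ o, out o ∈ l) :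
    ∃ P : Prog ι O, P.leaves = 1 ∧ (∀ s, P.cost s ≤ 2 * l.length) ∧
      ∀ x o, P.answer (start W x) o < 0 ↔ out o (truths x) ∈ A := by
  obtain ⟨pre, st, c, N, h1, h2, h3, h4, h5, h6⟩ := sim_of_circ (O := O) hW hD A hA hl
  have h7 : ∀ o, ∃ q : ℕ, ∀ x, out o (truths x) ∈ A ↔ st (start W x) (Sum.inr q) < 0 := by
    intro o
    obtain ⟨q, -, -, hq⟩ := h6 _ (hout o)
    exact ⟨q, hq⟩
  choose q hq using h7
  refine ⟨pre (Prog.stop fun o => Sum.inr (q o)), ?_, ?_, ?_⟩
  · rw [h2]; rfl
  · intro s
    rw [h3]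
    show c + 0 ≤ _
    omega
  · intro x o
    rw [h4]
    exact (hq o x).symm

end

end Pool.Agent.H698.UA
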