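import Pool.Agent.H698.UA.Low
import Pool.Agent.H698.UO.Up

set_option autoImplicit false

/-! # The naive circuits for distances at most two with unknown weights (helper698) -/

open scoped Classical
open Finset

namespace Pool.Agent.H698.UA

open Pool.Agent.H698.HF
open Pool.Agent.H587R2.MRB
open Pool.Agent.H698.UO (kor kor_true kor_false kor_mono inp)
open Flat (unknown known)

/-- the three-valued conjunction -/
def kand : Flat Bool → Flat Bool → Flat Bool
  | known false, _ => known false
  | _, known false => known false
  | known true, known true => known true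
  | _, _ => unknown

theorem kand_true (x y : Flat Bool) :
    kand x y = known true ↔ x = known true ∧ y = known true := by
  rcases x with _ | (_ | _) <;> rcases y with _ | (_ | _) <;> simp [kand]

theorem kand_false (x y : Flat Bool) :
    kand x y = known false ↔ x = known false ∨ y = known false := by
  rcases x with _ | (_ | _) <;> rcases y with _ | (_ | _) <;> simp [kand]

theorem kand_mono (x x' y y' : Flat Bool) (hx : x ≤ x') (hy : y ≤ y') : kand x y ≤ kand x' y' := by
  rw [Flat.le_iff] at hx hy ⊢
  rcases hx with rfl | rfl
  · rcases hy with rfl | rfl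
    · left; rfl
    · rcases y with _ | (_ | _)
      · left; rfl
      · right; rcases x' with _ | (_ | _) <;> rfl
      · left; rfl
  · rcases hy with rfl | rfl
    · rcases x with _ | (_ | _)
      · left; rfl
      · right; rcases y' with _ | (_ | _) <;> rfl
      · left; rfl
    · right; rfl

variable {n : ℕ}

/-- arc or path with two arcs whose middle vertex is in the list -/
def val (u v : Fin n) : List (Fin n) → Know (Fin n × Fin n) → Flat Bool
  | [], P => inp (P (u, v))
  | k :: ks, P => kor (kand (inp (P (u, k))) (inp (P (k, v)))) (val u v ks P)

theorem inp_eq (o : Option Bool) (b : Bool) : inp o = known b ↔ o = some b := by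
  rcases o with _ | c <;> simp [inp]

theorem val_true (u v : Fin n) (P : Know (Fin n × Fin n)) : ∀ ks,
    val u v ks P = known true ↔
      P (u, v) = some true ∨ ∃ k ∈ ks, P (u, k) = some true ∧ P (k, v) = some true
  | [] => by simp [val, inp_eq]
  | k :: ks => by
    have h := val_true u v P ks
    unfold val
    rw [kor_true, kand_true, h, inp_eq, inp_eq]
    simp only [List.mem_cons, exists_eq_or_imp]
    tauto

theorem val_false (u v : Fin n) (P : Know (Fin n × Fin n)) : ∀ ks,
    val u v ks P = known false ↔
      P (u, v) = some false ∧ ∀ k ∈ ks, P (u, k) = some false ∨ P (k, v) = some false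
  | [] => by simp [val, inp_eq]
  | k :: ks => by
    have h := val_false u v P ks
    unfold val
    rw [kor_false, kand_false, h, inp_eq, inp_eq]
    simp only [List.mem_cons, forall_eq_or_imp]
    tauto

theorem exists_chain (u v : Fin n)
    {l : List (Know (Fin n × Fin n) → Flat Bool)} (hl : Circ l)
    (h1 : ∀ e, (fun P : Know (Fin n × Fin n) => inp (P e)) ∈ l) (ks : List (Fin n)) :
    ∃ l', Circ l' ∧ (∀ g ∈ l, g ∈ l') ∧ l'.length ≤ l.length + 2 * ks.length ∧
      val u v ks ∈ l' := by
  induction ks with
  | nil => exact ⟨l, hl, fun g hg => hg, by simp, h1 (u, v)⟩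
  | cons k ks ih =>
    obtain ⟨l', g1, g2, g3, g4⟩ := ih
    have c1 := Circ.gate g1 kand_mono (g2 _ (h1 (u, k))) (g2 _ (h1 (k, v)))
    refine ⟨_, Circ.gate c1 kor_mono List.mem_cons_self (List.mem_cons_of_mem _ g4),
      fun g hg => List.mem_cons_of_mem _ (List.mem_cons_of_mem _ (g2 g hg)), ?_,
      List.mem_cons_self⟩
    simp only [List.length_cons]
    omega

theorem exists_all {l : List (Know (Fin n × Fin n) → Flat Bool)} (hl : Circ l)
    (h1 : ∀ e, (fun P : Know (Fin n × Fin n) => inp (P e)) ∈ l)
    (ks : List (Fin n)) (es : List (Fin n × Fin n)) :
    ∃ l', Circ l' ∧ (∀ g ∈ l, g ∈ l') ∧ l'.length ≤ l.length + es.length * (2 * ks.length) ∧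
      ∀ e ∈ es, val e.1 e.2 ks ∈ l' := by
  induction es with
  | nil => exact ⟨l, hl, fun g hg => hg, by simp, by simp⟩
  | cons e es ih =>
    obtain ⟨l', g1, g2, g3, g4⟩ := ih
    obtain ⟨l'', k1, k2, k3, k4⟩ := exists_chain e.1 e.2 g1 (fun e => g2 _ (h1 e)) ks
    refine ⟨l'', k1, fun g hg => k2 g (g2 g hg), ?_, ?_⟩
    · simp only [List.length_cons]
      have : (es.length + 1) * (2 * ks.length) = es.length * (2 * ks.length) + 2 * ks.length := by
        ring
      omega
    · intro e' he'
      rcases List.mem_cons.1 he' with rfl | he'
      · exact k4
      · exact k2 _ (g4 e' he')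

theorem len_le_walk {W : ℕ} (hW : 2 < W) (x : Fin n × Fin n → Prop) (v : Fin n) :
    ∀ (l : List (Fin n)) (u : Fin n), l.length + 1 ≤ walkLen (wts W x) u l v
  | [], u => by
    show 0 + 1 ≤ wts W x u v
    unfold wts
    split_ifs <;> omega
  | k :: l, u => by
    have h := len_le_walk hW x v l k
    have h2 : 1 ≤ wts W x u k := by
      unfold wts
      split_ifs <;> omega
    show (l.length + 1) + 1 ≤ wts W x u k + walkLen (wts W x) k l v
    omega

theorem dist_le_two_iff {W : ℕ} (hW : 2 < W) (x : Fin n × Fin n → Prop) (u v : Fin n) :
    dist (wts W x) u v ≤ 2 ↔ x (u, v) ∨ ∃ k, x (u, k) ∧ x (k, v) := by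
  constructor
  · intro h
    obtain ⟨l, hl⟩ : ∃ l : List (Fin n), walkLen (wts W x) u l v = dist (wts W x) u v :=
      Nat.sInf_mem (Set.range_nonempty _)
    rw [← hl] at h
    rcases l with _ | ⟨k, l⟩
    · left
      by_contra hc
      have : walkLen (wts W x) u [] v = W := by
        show wts W x u v = W
        unfold wts
        rw [if_neg hc]
      omega
    · rcases l with _ | ⟨k', l⟩
      · right
        have h2 : wts W x u k + wts W x k v ≤ 2 := h
        refine ⟨k, ?_, ?_⟩
        · by_contra hc
          have : wts W x u k = W := by
            unfold wts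
            rw [if_neg hc]
          omega
        · by_contra hc
          have : wts W x k v = W := by
            unfold wts
            rw [if_neg hc]
          omega
      · have := len_le_walk hW x v (k :: k' :: l) u
        simp only [List.length_cons] at this
        omega
  · rintro (h | ⟨k, h1, h2⟩)
    · refine (ciInf_le (OrderBot.bddBelow _) []).trans ?_
      show wts W x u v ≤ 2
      unfold wts
      rw [if_pos h]
      omega
    · refine (ciInf_le (OrderBot.bddBelow _) [k]).trans ?_
      show wts W x u k + wts W x k v ≤ 2
      unfold wts
      rw [if_pos h1, if_pos h2]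

/-- the naive three-valued circuit -/
theorem upperA (hn : 2 ≤ n) {W : ℕ} (hW : 2 < W) :
    ∃ l : List (Know (Fin n × Fin n) → Flat Bool), Circ l ∧ l.length ≤ 3 * n ^ 3 ∧
      (∀ α : ℝ, 1 ≤ α → SolvesA W α (1 / 2) (fun _ : Unit => 1) (fun _ => l)) ∧
      ∃ out : Fin n → Fin n → Know (Fin n × Fin n) → Flat Bool, (∀ u v, out u v ∈ l) ∧
        ∀ (P : Know (Fin n × Fin n)) (u v : Fin n),
          (out u v P = known true ↔ ∀ x, Le P (full x) → dist (wts W x) u v ≤ 2) ∧
          (out u v P = known false ↔ ∀ x, Le P (full x) → 2 < dist (wts W x) u v) := by
  obtain ⟨l0, a1, a2, a3⟩ :=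
    Pool.Agent.H698.UO.exists_inputs (n := n) (univ : Finset (Fin n × Fin n)).toList
  obtain ⟨l, c1, c2, c3, c4⟩ := exists_all a1 (fun e => a3 e (by simp))
    (univ : Finset (Fin n)).toList (univ : Finset (Fin n × Fin n)).toList
  have hT : ∀ (P : Know (Fin n × Fin n)) (u v : Fin n),
      val u v (univ : Finset (Fin n)).toList P = known true ↔
        P (u, v) = some true ∨ ∃ k, P (u, k) = some true ∧ P (k, v) = some true := by
    intro P u v
    rw [val_true]
    simp
  have hF : ∀ (P : Know (Fin n × Fin n)) (u v : Fin n),
      val u v (univ : Finset (Fin n)).toList P = known false ↔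
        P (u, v) = some false ∧ ∀ k, P (u, k) = some false ∨ P (k, v) = some false := by
    intro P u v
    rw [val_false]
    simp
  have hmem : ∀ u v : Fin n, val u v (univ : Finset (Fin n)).toList ∈ l :=
    fun u v => c4 (u, v) (by simp)
  have hfull : ∀ (P : Know (Fin n × Fin n)) (x : Fin n × Fin n → Prop), Le P (full x) →
      ∀ e b, P e = some b → (x e ↔ b = true) := by
    intro P x hx e b he
    rcases hx e with h | h
    · rw [he] at h; exact absurd h (by simp)
    · rw [he] at h
      unfold full at h
      have h' : b = decide (x e) := Option.some.inj h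
      rw [h']
      simp
  refine ⟨l, c1, ?_, ?_, fun u v => val u v (univ : Finset (Fin n)).toList, hmem, ?_⟩
  · rw [a2, length_toList, length_toList, card_univ, card_univ,
      Fintype.card_prod, Fintype.card_fin] at c3
    nlinarith [Nat.mul_le_mul hn (Nat.mul_self_le_mul_self hn)]
  · intro α hα
    refine ⟨fun _ => zero_le_one, by simp,
      fun _ e => val e.1 e.2 (univ : Finset (Fin n)).toList,
      fun _ => {known true}, fun _ e => hmem e.1 e.2, ?_, ?_⟩
    · intro _ x y hxy hx
      rw [Set.mem_singleton_iff] at hx ⊢
      rw [hx, Flat.le_iff] at hxy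
      rcases hxy with h | h
      · exact absurd h (by simp)
      · exact h.symm
    · intro x u v _
      constructor
      · intro hd
        rw [dist_le_two_iff hW] at hd
        have h : val u v (univ : Finset (Fin n)).toList (truths x) = known true := by
          rw [hT]
          rcases hd with hd | ⟨k, hk1, hk2⟩
          · left
            unfold truths
            rw [if_pos hd]
          · right
            refine ⟨k, ?_, ?_⟩
            · unfold truths
              rw [if_pos hk1]
            · unfold truths
              rw [if_pos hk2]
        rw [filter_true_of_mem (fun _ _ => by rw [Set.mem_singleton_iff]; exact h)]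
        norm_num
      · intro hd
        have hd2 : ¬ dist (wts W x) u v ≤ 2 := by
          intro h
          have h' : (dist (wts W x) u v : ℝ) ≤ 2 := by exact_mod_cast h
          linarith
        rw [dist_le_two_iff hW] at hd2
        have h : val u v (univ : Finset (Fin n)).toList (full x) ≠ known true := by
          rw [Ne, hT]
          intro h
          refine hd2 ?_
          rcases h with h | ⟨k, hk1, hk2⟩
          · left
            unfold full at h
            simpa using h
          · right
            refine ⟨k, ?_, ?_⟩
            · unfold full at hk1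
              simpa using hk1
            · unfold full at hk2
              simpa using hk2
        rw [filter_true_of_mem (fun _ _ => by rw [Set.mem_singleton_iff]; exact h)]
        norm_num
  · intro P u v
    constructor
    · rw [hT]
      constructor
      · intro h x hx
        rw [dist_le_two_iff hW]
        rcases h with h | ⟨k, hk1, hk2⟩
        · exact Or.inl ((hfull P x hx _ _ h).2 rfl)
        · exact Or.inr ⟨k, (hfull P x hx _ _ hk1).2 rfl, (hfull P x hx _ _ hk2).2 rfl⟩
      · intro h
        have h2 := h (fun e => P e = some true) ?_
        · rw [dist_le_two_iff hW] at h2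
          exact h2
        · intro e
          unfold full
          rcases hP : P e with _ | b
          · left; rfl
          · right
            cases b <;> simp [hP]
    · rw [hF]
      constructor
      · rintro ⟨h1, h2⟩ x hx
        rw [← not_le, dist_le_two_iff hW]
        rintro (h | ⟨k, hk1, hk2⟩)
        · have := (hfull P x hx _ _ h1).1 h
          exact absurd this (by simp)
        · rcases h2 k with h3 | h3
          · have := (hfull P x hx _ _ h3).1 hk1
            exact absurd this (by simp)
          · have := (hfull P x hx _ _ h3).1 hk2
            exact absurd this (by simp)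
      · intro h
        have h2 := h (fun e => P e ≠ some false) ?_
        · rw [← not_le, dist_le_two_iff hW] at h2
          push Not at h2
          refine ⟨h2.1, fun k => ?_⟩
          by_contra hc
          push Not at hc
          exact hc.2 (h2.2 k hc.1)
        · intro e
          unfold full
          rcases hP : P e with _ | b
          · left; rfl
          · right
            cases b <;> simp [hP]

end Pool.Agent.H698.UA
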